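import Mathlib

set_option autoImplicit false

/-!
# Two Hall steps (abstract form)

`P : Finset α` is the lower level, `Q : Finset β` the upper level, `U x ⊆ Q` the upper covers of
`x ∈ P`, `L v ⊆ P` the lower covers of `v ∈ Q`, and `π` a bijection of `Q`.

* `kill`: the step where only `|Y|` links are prescribed, at least `r` of them are dropped;
* `punct`: the punctured step of Griggs, outside `X, X'` and `X₁, X₁'`.
-/

namespace Pool.Agent.Helper44.SNX

open Finset

variable {α β : Type*} [DecidableEq α] [DecidableEq β]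

section Kill

/-- neighbourhoods in the graph with hubs -/
def nbK (P : Finset α) (Q Y : Finset β) (U : α → Finset β) (L : β → Finset α) (π : β → β) (N : ℕ) :
    ({x // x ∈ P} ⊕ ({u // u ∈ Q} ⊕ Fin N)) → Finset (β ⊕ (α ⊕ Fin N))
  | Sum.inl x => (U x.1).map Function.Embedding.inl
  | Sum.inr (Sum.inl u) =>
      (if u.1 ∈ Y then {Sum.inl u.1} else
        (univ : Finset (Fin N)).image fun i => Sum.inr (Sum.inr i)) ∪
        (L (π u.1)).image fun x => Sum.inr (Sum.inl x)
  | Sum.inr (Sum.inr _) =>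
      (Q \ Y).image (fun u => Sum.inl u) ∪
        (univ : Finset (Fin N)).image fun i => Sum.inr (Sum.inr i)

theorem countK {P : Finset α} {Q Y : Finset β} {U : α → Finset β} {L : β → Finset α} {π : β → β}
    {r : ℕ} (hLP : ∀ v ∈ Q, L v ⊆ P) (hUQ : ∀ x ∈ P, U x ⊆ Q)
    (hUL : ∀ x ∈ P, ∀ v ∈ Q, x ∈ L v ↔ v ∈ U x)
    (hπ : Set.BijOn π (Q : Set β) (Q : Set β)) (hY : Y ⊆ Q)
    (hC : ∀ A ⊆ P, ∀ B ⊆ P, r + A.card + B.card ≤
      max Y.card ((A.biUnion U).card + (B.biUnion U).card))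
    {A : Finset α} {D : Finset β} (hA : A ⊆ P) (hD : D ⊆ Q) :
    A.card + D.card + P.card + r ≤
      (A.biUnion U ∪ (D ∩ Y)).card + (D.biUnion fun u => L (π u)).card + Q.card := by
  set B : Finset α := P \ (D.biUnion fun u => L (π u)) with hB
  have hBP : B ⊆ P := sdiff_subset
  have hsub : (D.biUnion fun u => L (π u)) ⊆ P := by
    intro x hx
    obtain ⟨u, hu, hx⟩ := mem_biUnion.1 hx
    exact hLP _ (hπ.mapsTo (mem_coe.2 (hD hu))) hx
  have h1 : B.card + (D.biUnion fun u => L (π u)).card = P.card :=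
    card_sdiff_add_card_eq_card hsub
  have h2 : (Q \ D).card + D.card = Q.card := card_sdiff_add_card_eq_card hD
  have h3 : (B.biUnion U).card ≤ (Q \ D).card := by
    have h4 : B.biUnion U ⊆ (Q \ D).image π := by
      intro v hv
      obtain ⟨x, hx, hv⟩ := mem_biUnion.1 hv
      have hvQ : v ∈ Q := hUQ x (hBP hx) hv
      obtain ⟨u, hu, rfl⟩ := hπ.surjOn (mem_coe.2 hvQ)
      refine mem_image.2 ⟨u, mem_sdiff.2 ⟨hu, fun huD => ?_⟩, rfl⟩
      rw [hB, mem_sdiff] at hx
      exact hx.2 (mem_biUnion.2 ⟨u, huD, (hUL x hx.1 _ hvQ).2 hv⟩)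
    exact (card_le_card h4).trans card_image_le
  have h5 : Y.card ≤ (A.biUnion U ∪ (D ∩ Y)).card + (Q \ D).card := by
    have h6 : Y ⊆ (A.biUnion U ∪ (D ∩ Y)) ∪ (Q \ D) := by
      intro u hu
      by_cases h : u ∈ D
      · exact mem_union_left _ (mem_union_right _ (mem_inter.2 ⟨h, hu⟩))
      · exact mem_union_right _ (mem_sdiff.2 ⟨hY hu, h⟩)
    exact (card_le_card h6).trans (card_union_le _ _)
  have h7 : (A.biUnion U).card ≤ (A.biUnion U ∪ (D ∩ Y)).card := card_le_card subset_union_left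
  have h8 := hC A hA B hBP
  have h9 : max Y.card ((A.biUnion U).card + (B.biUnion U).card) ≤
      (A.biUnion U ∪ (D ∩ Y)).card + (Q \ D).card := max_le h5 (by omega)
  omega

theorem hallK {P : Finset α} {Q Y : Finset β} {U : α → Finset β} {L : β → Finset α} {π : β → β}
    {r N : ℕ} (hLP : ∀ v ∈ Q, L v ⊆ P) (hUQ : ∀ x ∈ P, U x ⊆ Q)
    (hUL : ∀ x ∈ P, ∀ v ∈ Q, x ∈ L v ↔ v ∈ U x)
    (hπ : Set.BijOn π (Q : Set β) (Q : Set β)) (hY : Y ⊆ Q)
    (hfull : ∀ A ⊆ P, ∀ D ⊆ Q, A.card + D.card ≤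
      (A.biUnion U ∪ D).card + (D.biUnion fun u => L (π u)).card)
    (hC : ∀ A ⊆ P, ∀ B ⊆ P, r + A.card + B.card ≤
      max Y.card ((A.biUnion U).card + (B.biUnion U).card))
    (hN : P.card + r + N = Q.card)
    (s : Finset ({x // x ∈ P} ⊕ ({u // u ∈ Q} ⊕ Fin N))) :
    s.card ≤ (s.biUnion (nbK P Q Y U L π N)).card := by
  set A : Finset α := s.toLeft.map (Function.Embedding.subtype _) with hAdef
  set D : Finset β := s.toRight.toLeft.map (Function.Embedding.subtype _) with hDdef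
  set H : Finset (Fin N) := s.toRight.toRight with hHdef
  have hA : A ⊆ P := by
    intro x hx
    obtain ⟨z, _, rfl⟩ := mem_map.1 hx
    exact z.2
  have hD : D ⊆ Q := by
    intro x hx
    obtain ⟨z, _, rfl⟩ := mem_map.1 hx
    exact z.2
  have hcard : s.card = A.card + (D.card + H.card) := by
    rw [hAdef, hDdef, hHdef, card_map, card_map, card_toLeft_add_card_toRight,
      card_toLeft_add_card_toRight]
  have hHN : H.card ≤ N := by
    have := card_le_univ H
    simpa using this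
  have hmA : ∀ x ∈ A, ∀ v ∈ U x, (Sum.inl v : β ⊕ (α ⊕ Fin N)) ∈
      s.biUnion (nbK P Q Y U L π N) := by
    intro x hx v hv
    obtain ⟨w, hw, rfl⟩ := mem_map.1 hx
    exact mem_biUnion.2 ⟨Sum.inl w, mem_toLeft.1 hw, mem_map_of_mem _ hv⟩
  have hmD : ∀ u ∈ D, ∀ z ∈ (if u ∈ Y then {Sum.inl u} else
        (univ : Finset (Fin N)).image fun i => Sum.inr (Sum.inr i)) ∪
        (L (π u)).image fun x => (Sum.inr (Sum.inl x) : β ⊕ (α ⊕ Fin N)),
      z ∈ s.biUnion (nbK P Q Y U L π N) := by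
    intro u hu z hz
    obtain ⟨w, hw, rfl⟩ := mem_map.1 hu
    exact mem_biUnion.2 ⟨Sum.inr (Sum.inl w), mem_toRight.1 (mem_toLeft.1 hw), hz⟩
  have hmH : H.Nonempty → ∀ z ∈ (Q \ Y).image (fun u => Sum.inl u) ∪
        (univ : Finset (Fin N)).image fun i => (Sum.inr (Sum.inr i) : β ⊕ (α ⊕ Fin N)),
      z ∈ s.biUnion (nbK P Q Y U L π N) := by
    rintro ⟨i, hi⟩ z hz
    exact mem_biUnion.2 ⟨Sum.inr (Sum.inr i), mem_toRight.1 (mem_toRight.1 hi), hz⟩
  rw [hcard]
  by_cases hHe : H.Nonempty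
  · -- a hub
    have hsub : (A.biUnion U ∪ D).disjSum ((D.biUnion fun u => L (π u)).disjSum
        (univ : Finset (Fin N))) ⊆ s.biUnion (nbK P Q Y U L π N) := by
      intro z hz
      rcases z with z | z | z
      · rw [inl_mem_disjSum, mem_union] at hz
        rcases hz with hz | hz
        · obtain ⟨x, hx, hv⟩ := mem_biUnion.1 hz
          exact hmA x hx z hv
        · by_cases hzY : z ∈ Y
          · refine hmD z hz _ (mem_union_left _ ?_)
            rw [if_pos hzY]
            exact mem_singleton_self _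
          · exact hmH hHe _ (mem_union_left _ (mem_image_of_mem _ (mem_sdiff.2 ⟨hD hz, hzY⟩)))
      · rw [inr_mem_disjSum, inl_mem_disjSum] at hz
        obtain ⟨u, hu, hx⟩ := mem_biUnion.1 hz
        exact hmD u hu _ (mem_union_right _ (mem_image_of_mem _ hx))
      · exact hmH hHe _ (mem_union_right _ (mem_image_of_mem _ (mem_univ _)))
    have h1 := card_le_card hsub
    rw [card_disjSum, card_disjSum] at h1
    have h2 := hfull A hA D hD
    have h3 : (univ : Finset (Fin N)).card = N := by simp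
    omega
  · have hH0 : H.card = 0 := by
      rw [card_eq_zero]
      exact not_nonempty_iff_eq_empty.1 hHe
    by_cases hDY : D ⊆ Y
    · have hsub : (A.biUnion U ∪ D).disjSum ((D.biUnion fun u => L (π u)).disjSum
          (∅ : Finset (Fin N))) ⊆ s.biUnion (nbK P Q Y U L π N) := by
        intro z hz
        rcases z with z | z | z
        · rw [inl_mem_disjSum, mem_union] at hz
          rcases hz with hz | hz
          · obtain ⟨x, hx, hv⟩ := mem_biUnion.1 hz
            exact hmA x hx z hv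
          · refine hmD z hz _ (mem_union_left _ ?_)
            rw [if_pos (hDY hz)]
            exact mem_singleton_self _
        · rw [inr_mem_disjSum, inl_mem_disjSum] at hz
          obtain ⟨u, hu, hx⟩ := mem_biUnion.1 hz
          exact hmD u hu _ (mem_union_right _ (mem_image_of_mem _ hx))
        · rw [inr_mem_disjSum, inr_mem_disjSum] at hz
          exact absurd hz (notMem_empty _)
      have h1 := card_le_card hsub
      rw [card_disjSum, card_disjSum, card_empty] at h1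
      have h2 := hfull A hA D hD
      omega
    · obtain ⟨w, hwD, hwY⟩ := not_subset.1 hDY
      have hsub : (A.biUnion U ∪ (D ∩ Y)).disjSum ((D.biUnion fun u => L (π u)).disjSum
          (univ : Finset (Fin N))) ⊆ s.biUnion (nbK P Q Y U L π N) := by
        intro z hz
        rcases z with z | z | z
        · rw [inl_mem_disjSum, mem_union] at hz
          rcases hz with hz | hz
          · obtain ⟨x, hx, hv⟩ := mem_biUnion.1 hz
            exact hmA x hx z hv
          · refine hmD z (mem_inter.1 hz).1 _ (mem_union_left _ ?_)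
            rw [if_pos (mem_inter.1 hz).2]
            exact mem_singleton_self _
        · rw [inr_mem_disjSum, inl_mem_disjSum] at hz
          obtain ⟨u, hu, hx⟩ := mem_biUnion.1 hz
          exact hmD u hu _ (mem_union_right _ (mem_image_of_mem _ hx))
        · refine hmD w hwD _ (mem_union_left _ ?_)
          rw [if_neg hwY]
          exact mem_image_of_mem _ (mem_univ _)
      have h1 := card_le_card hsub
      rw [card_disjSum, card_disjSum] at h1
      have h2 := countK hLP hUQ hUL hπ hY hC hA hD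
      have h3 : (univ : Finset (Fin N)).card = N := by simp
      omega

/-- **The killing step.** -/
theorem kill [Nonempty β] {P : Finset α} {Q Y : Finset β} {U : α → Finset β} {L : β → Finset α}
    {π : β → β} {r : ℕ} (hLP : ∀ v ∈ Q, L v ⊆ P) (hUQ : ∀ x ∈ P, U x ⊆ Q)
    (hUL : ∀ x ∈ P, ∀ v ∈ Q, x ∈ L v ↔ v ∈ U x)
    (hπ : Set.BijOn π (Q : Set β) (Q : Set β)) (hY : Y ⊆ Q)
    (hfull : ∀ A ⊆ P, ∀ D ⊆ Q, A.card + D.card ≤
      (A.biUnion U ∪ D).card + (D.biUnion fun u => L (π u)).card)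
    (hC : ∀ A ⊆ P, ∀ B ⊆ P, r + A.card + B.card ≤
      max Y.card ((A.biUnion U).card + (B.biUnion U).card)) :
    ∃ F G : α → β, (∀ x ∈ P, F x ∈ U x ∧ G x ∈ U x) ∧
      Set.InjOn F (P : Set α) ∧ Set.InjOn G (P : Set α) ∧
      (∀ u ∈ Y, u ∈ P.image F ↔ π u ∈ P.image G) ∧
      r ≤ (Y \ P.image F).card := by
  have hrN : ∃ N, P.card + r + N = Q.card := by
    have h1 := hC P (Subset.refl _) ∅ (empty_subset _)
    rw [card_empty, biUnion_empty, card_empty] at h1
    have h2 : (P.biUnion U).card ≤ Q.card := card_le_card (biUnion_subset.2 hUQ)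
    have h3 : Y.card ≤ Q.card := card_le_card hY
    have h4 : P.card + r ≤ Q.card := by
      rcases le_max_iff.1 h1 with h | h <;> omega
    exact ⟨Q.card - (P.card + r), by omega⟩
  obtain ⟨N, hN⟩ := hrN
  obtain ⟨f, hfi, hf⟩ := (Finset.all_card_le_biUnion_card_iff_exists_injective
    (nbK P Q Y U L π N)).1 (hallK hLP hUQ hUL hπ hY hfull hC hN)
  -- where the values lie
  have hfl : ∀ x : {x // x ∈ P}, ∃ u ∈ U x.1, f (Sum.inl x) = Sum.inl u := by
    intro x
    have h := hf (Sum.inl x)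
    obtain ⟨u, hu, h⟩ := mem_map.1 h
    exact ⟨u, hu, h.symm⟩
  have hfc : ∀ u : {u // u ∈ Q}, (u.1 ∈ Y ∧ f (Sum.inr (Sum.inl u)) = Sum.inl u.1) ∨
      (u.1 ∉ Y ∧ ∃ i, f (Sum.inr (Sum.inl u)) = Sum.inr (Sum.inr i)) ∨
      ∃ y ∈ L (π u.1), f (Sum.inr (Sum.inl u)) = Sum.inr (Sum.inl y) := by
    intro u
    have h := hf (Sum.inr (Sum.inl u))
    rcases mem_union.1 h with h | h
    · by_cases hu : u.1 ∈ Y
      · rw [if_pos hu, mem_singleton] at h
        exact Or.inl ⟨hu, h⟩
      · rw [if_neg hu] at h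
        obtain ⟨i, _, h⟩ := mem_image.1 h
        exact Or.inr (Or.inl ⟨hu, i, h.symm⟩)
    · obtain ⟨y, hy, h⟩ := mem_image.1 h
      exact Or.inr (Or.inr ⟨y, hy, h.symm⟩)
  have hfh : ∀ j : Fin N, (∃ u ∈ Q \ Y, f (Sum.inr (Sum.inr j)) = Sum.inl u) ∨
      ∃ i, f (Sum.inr (Sum.inr j)) = Sum.inr (Sum.inr i) := by
    intro j
    have h := hf (Sum.inr (Sum.inr j))
    rcases mem_union.1 h with h | h
    · obtain ⟨u, hu, h⟩ := mem_image.1 h
      exact Or.inl ⟨u, hu, h.symm⟩
    · obtain ⟨i, _, h⟩ := mem_image.1 h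
      exact Or.inr ⟨i, h.symm⟩
  -- surjectivity
  have hsurj : ∀ z ∈ Q.disjSum (P.disjSum (univ : Finset (Fin N))), ∃ i, f i = z := by
    have h1 : (univ.image f) ⊆ Q.disjSum (P.disjSum (univ : Finset (Fin N))) := by
      intro z hz
      obtain ⟨i, _, rfl⟩ := mem_image.1 hz
      rcases i with x | u | j
      · obtain ⟨u, hu, h⟩ := hfl x
        rw [h, inl_mem_disjSum]
        exact hUQ _ x.2 hu
      · rcases hfc u with ⟨_, h⟩ | ⟨_, i, h⟩ | ⟨y, hy, h⟩
        · rw [h, inl_mem_disjSum]; exact u.2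
        · rw [h, inr_mem_disjSum, inr_mem_disjSum]; exact mem_univ _
        · rw [h, inr_mem_disjSum, inl_mem_disjSum]
          exact hLP _ (hπ.mapsTo (mem_coe.2 u.2)) hy
      · rcases hfh j with ⟨u, hu, h⟩ | ⟨i, h⟩
        · rw [h, inl_mem_disjSum]; exact (mem_sdiff.1 hu).1
        · rw [h, inr_mem_disjSum, inr_mem_disjSum]; exact mem_univ _
    have h2 : (univ.image f).card = (Q.disjSum (P.disjSum (univ : Finset (Fin N)))).card := by
      rw [card_image_of_injective _ hfi, card_disjSum, card_disjSum, card_univ,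
        Fintype.card_sum, Fintype.card_sum, Fintype.card_coe, Fintype.card_coe]
      simp
      omega
    have h3 := eq_of_subset_of_card_le h1 h2.ge
    intro z hz
    rw [← h3] at hz
    obtain ⟨i, _, h⟩ := mem_image.1 hz
    exact ⟨i, h⟩
  -- the two maps
  have hFex : ∀ x : α, ∃ u : β, ∀ hx : x ∈ P, u ∈ U x ∧ f (Sum.inl ⟨x, hx⟩) = Sum.inl u := by
    intro x
    by_cases hx : x ∈ P
    · obtain ⟨u, hu, h⟩ := hfl ⟨x, hx⟩
      exact ⟨u, fun _ => ⟨hu, h⟩⟩
    · exact ⟨Classical.arbitrary β, fun h => absurd h hx⟩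
  have hGex : ∀ y : α, ∃ v : β, ∀ _ : y ∈ P, v ∈ U y ∧
      ∃ u : {u // u ∈ Q}, v = π u.1 ∧ f (Sum.inr (Sum.inl u)) = Sum.inr (Sum.inl y) := by
    intro y
    by_cases hy : y ∈ P
    · obtain ⟨i, hi⟩ := hsurj (Sum.inr (Sum.inl y)) (by
        rw [inr_mem_disjSum, inl_mem_disjSum]; exact hy)
      rcases i with x | u | j
      · obtain ⟨u, _, h⟩ := hfl x
        rw [h] at hi; simp at hi
      · rcases hfc u with ⟨_, h⟩ | ⟨_, i, h⟩ | ⟨y', hy', h⟩
        · rw [h] at hi; simp at hi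
        · rw [h] at hi; simp at hi
        · have hyy : y' = y := by
            rw [h] at hi
            simpa using hi
          subst hyy
          have huQ : π u.1 ∈ Q := hπ.mapsTo (mem_coe.2 u.2)
          exact ⟨π u.1, fun _ => ⟨(hUL y' hy _ huQ).1 hy', u, rfl, hi⟩⟩
      · rcases hfh j with ⟨u, _, h⟩ | ⟨i, h⟩
        · rw [h] at hi; simp at hi
        · rw [h] at hi; simp at hi
    · exact ⟨Classical.arbitrary β, fun h => absurd h hy⟩
  choose F hF using hFex
  choose G hG using hGex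
  refine ⟨F, G, fun x hx => ⟨(hF x hx).1, (hG x hx).1⟩, ?_, ?_, ?_, ?_⟩
  · intro x hx y hy hxy
    have h1 := (hF x hx).2
    have h2 := (hF y hy).2
    rw [hxy, ← h2] at h1
    simpa using hfi h1
  · intro x hx y hy hxy
    obtain ⟨u, hu, hu'⟩ := (hG x hx).2
    obtain ⟨v, hv, hv'⟩ := (hG y hy).2
    have h1 : u = v := by
      apply Subtype.ext
      exact hπ.injOn (mem_coe.2 u.2) (mem_coe.2 v.2) (by rw [← hu, ← hv, hxy])
    rw [h1, hv'] at hu'
    simpa using hu'.symm
  · intro u hu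
    have huQ := hY hu
    constructor
    · intro h
      obtain ⟨x, hx, rfl⟩ := mem_image.1 h
      rcases hfc ⟨F x, huQ⟩ with ⟨_, h⟩ | ⟨h, _⟩ | ⟨y, hy, h⟩
      · rw [← (hF x hx).2] at h
        exact absurd (hfi h) (by simp)
      · exact absurd hu h
      · have hyP : y ∈ P := hLP _ (hπ.mapsTo (mem_coe.2 huQ)) hy
        obtain ⟨v, hv, hv'⟩ := (hG y hyP).2
        have h1 := hfi (h.trans hv'.symm)
        have h2 : (⟨F x, huQ⟩ : {u // u ∈ Q}) = v := by simpa using h1
        refine mem_image.2 ⟨y, hyP, ?_⟩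
        rw [hv, ← h2]
    · intro h
      obtain ⟨y, hy, hyu⟩ := mem_image.1 h
      obtain ⟨v, hv, hv'⟩ := (hG y hy).2
      have h1 : v.1 = u := hπ.injOn (mem_coe.2 v.2) (mem_coe.2 huQ) (by rw [← hv, hyu])
      obtain ⟨i, hi⟩ := hsurj (Sum.inl u) (by rw [inl_mem_disjSum]; exact huQ)
      rcases i with x | w | j
      · have h2 := (hF x.1 x.2).2
        rw [hi] at h2
        exact mem_image.2 ⟨x.1, x.2, by simpa using h2.symm⟩
      · rcases hfc w with ⟨_, h⟩ | ⟨_, i, h⟩ | ⟨y', hy', h⟩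
        · rw [h] at hi
          have h3 : w.1 = u := by simpa using hi
          have h4 : w = v := Subtype.ext (h3.trans h1.symm)
          rw [h4, hv'] at h
          simp at h
        · rw [h] at hi; simp at hi
        · rw [h] at hi; simp at hi
      · rcases hfh j with ⟨w, hw, h⟩ | ⟨i, h⟩
        · rw [h] at hi
          have h3 : w = u := by simpa using hi
          rw [h3, mem_sdiff] at hw
          exact absurd hu hw.2
        · rw [h] at hi; simp at hi
  · -- counting
    have hFP : P.image F ⊆ Q := by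
      intro u hu
      obtain ⟨x, hx, rfl⟩ := mem_image.1 hu
      exact hUQ x hx (hF x hx).1
    have hFi : Set.InjOn F (P : Set α) := by
      intro x hx y hy hxy
      have h1 := (hF x hx).2
      have h2 := (hF y hy).2
      rw [hxy, ← h2] at h1
      simpa using hfi h1
    have hcF : (P.image F).card = P.card := card_image_of_injOn hFi
    have hhub : ∀ u ∈ (Q \ Y) \ P.image F, ∃ j : Fin N, f (Sum.inr (Sum.inr j)) = Sum.inl u := by
      intro u hu
      rw [mem_sdiff, mem_sdiff] at hu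
      obtain ⟨i, hi⟩ := hsurj (Sum.inl u) (by rw [inl_mem_disjSum]; exact hu.1.1)
      rcases i with x | w | j
      · have h2 := (hF x.1 x.2).2
        rw [hi] at h2
        exact absurd (mem_image.2 ⟨x.1, x.2, by simpa using h2.symm⟩) hu.2
      · rcases hfc w with ⟨hwY, h⟩ | ⟨_, i, h⟩ | ⟨y', hy', h⟩
        · rw [h] at hi
          have h3 : w.1 = u := by simpa using hi
          rw [h3] at hwY
          exact absurd hwY hu.1.2
        · rw [h] at hi; simp at hi
        · rw [h] at hi; simp at hi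
      · exact ⟨j, hi⟩
    have hle : ((Q \ Y) \ P.image F).card ≤ N := by
      have h1 : ((Q \ Y) \ P.image F).image (fun u => (Sum.inl u : β ⊕ (α ⊕ Fin N))) ⊆
          (univ : Finset (Fin N)).image fun j => f (Sum.inr (Sum.inr j)) := by
        intro z hz
        obtain ⟨u, hu, rfl⟩ := mem_image.1 hz
        obtain ⟨j, hj⟩ := hhub u hu
        exact mem_image.2 ⟨j, mem_univ _, hj⟩
      have h2 := card_le_card h1
      rw [card_image_of_injective _ Sum.inl_injective] at h2
      refine h2.trans (card_image_le.trans ?_)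
      simp
    have h1 : (Q \ Y).card + Y.card = Q.card := card_sdiff_add_card_eq_card hY
    have h2 : ((Q \ Y) \ P.image F).card + ((Q \ Y) ∩ P.image F).card = (Q \ Y).card :=
      card_sdiff_add_card_inter _ _
    have h3 : (Y \ P.image F).card + (Y ∩ P.image F).card = Y.card :=
      card_sdiff_add_card_inter _ _
    have h4 : ((Q \ Y) ∩ P.image F).card + (Y ∩ P.image F).card = (P.image F).card := by
      rw [← card_union_of_disjoint]
      · congr 1
        ext u
        simp only [mem_union, mem_inter, mem_sdiff]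
        constructor
        · rintro (⟨_, h⟩ | ⟨_, h⟩) <;> exact h
        · intro h
          by_cases hu : u ∈ Y
          · exact Or.inr ⟨hu, h⟩
          · exact Or.inl ⟨⟨hFP h, hu⟩, h⟩
      · rw [disjoint_left]
        intro u hu hu'
        exact (mem_sdiff.1 (mem_inter.1 hu).1).2 (mem_inter.1 hu').1
    omega

end Kill

section Punct

/-- neighbourhoods in the punctured graph -/
def nbP (P X X' : Finset α) (Q X₁ : Finset β) (U : α → Finset β) (L : β → Finset α) (π : β → β) :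
    ({x // x ∈ P \ X} ⊕ {u // u ∈ Q \ X₁}) → Finset (β ⊕ α)
  | Sum.inl x => (U x.1 \ X₁).map Function.Embedding.inl
  | Sum.inr u => insert (Sum.inl u.1) ((L (π u.1) \ X').map Function.Embedding.inr)

theorem hallP {P X X' : Finset α} {Q X₁ X₁' : Finset β} {U : α → Finset β} {L : β → Finset α}
    {π : β → β} (hπ : Set.BijOn π (Q : Set β) (Q : Set β)) (hX₁ : X₁ ⊆ Q)
    (hπX : X₁.image π = X₁')
    (hKP : ∀ A ⊆ P \ X, ∀ D ⊆ Q \ X₁', A.card ≤ (D.biUnion L \ X').card ∨
      A.card + D.card ≤ (A.biUnion U \ X₁).card + (D.biUnion L \ X').card)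
    (s : Finset ({x // x ∈ P \ X} ⊕ {u // u ∈ Q \ X₁})) :
    s.card ≤ (s.biUnion (nbP P X X' Q X₁ U L π)).card := by
  set A : Finset α := s.toLeft.map (Function.Embedding.subtype _) with hAdef
  set D : Finset β := s.toRight.map (Function.Embedding.subtype _) with hDdef
  have hA : A ⊆ P \ X := by
    intro x hx
    obtain ⟨z, _, rfl⟩ := mem_map.1 hx
    exact z.2
  have hD : D ⊆ Q \ X₁ := by
    intro x hx
    obtain ⟨z, _, rfl⟩ := mem_map.1 hx
    exact z.2
  have hcard : s.card = A.card + D.card := by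
    rw [hAdef, hDdef, card_map, card_map, card_toLeft_add_card_toRight]
  have hDi : D.image π ⊆ Q \ X₁' := by
    intro v hv
    obtain ⟨u, hu, rfl⟩ := mem_image.1 hv
    have huQ := mem_sdiff.1 (hD hu)
    refine mem_sdiff.2 ⟨hπ.mapsTo (mem_coe.2 huQ.1), fun h => ?_⟩
    rw [← hπX] at h
    obtain ⟨w, hw, hwu⟩ := mem_image.1 h
    have : w = u := hπ.injOn (mem_coe.2 (hX₁ hw)) (mem_coe.2 huQ.1) hwu
    exact huQ.2 (this ▸ hw)
  have hDc : (D.image π).card = D.card :=
    card_image_of_injOn (hπ.injOn.mono fun u hu => (mem_sdiff.1 (hD hu)).1)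
  have hsub : ((A.biUnion U \ X₁) ∪ D).disjSum ((D.image π).biUnion L \ X') ⊆
      s.biUnion (nbP P X X' Q X₁ U L π) := by
    intro z hz
    rw [mem_biUnion]
    rcases z with z | z
    · rw [inl_mem_disjSum, mem_union] at hz
      rcases hz with hz | hz
      · rw [mem_sdiff] at hz
        obtain ⟨x, hx, hv⟩ := mem_biUnion.1 hz.1
        obtain ⟨w, hw, rfl⟩ := mem_map.1 hx
        refine ⟨Sum.inl w, mem_toLeft.1 hw, ?_⟩
        simp only [nbP]
        exact mem_map_of_mem _ (mem_sdiff.2 ⟨hv, hz.2⟩)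
      · obtain ⟨w, hw, rfl⟩ := mem_map.1 hz
        refine ⟨Sum.inr w, mem_toRight.1 hw, ?_⟩
        simp only [nbP]
        exact mem_insert_self _ _
    · rw [inr_mem_disjSum, mem_sdiff] at hz
      obtain ⟨v, hv, hx⟩ := mem_biUnion.1 hz.1
      obtain ⟨u, hu, rfl⟩ := mem_image.1 hv
      obtain ⟨w, hw, rfl⟩ := mem_map.1 hu
      refine ⟨Sum.inr w, mem_toRight.1 hw, ?_⟩
      simp only [nbP]
      exact mem_insert_of_mem (mem_map_of_mem _ (mem_sdiff.2 ⟨hx, hz.2⟩))
  have h1 := card_le_card hsub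
  rw [card_disjSum] at h1
  have h2 : (A.biUnion U \ X₁).card ≤ ((A.biUnion U \ X₁) ∪ D).card :=
    card_le_card subset_union_left
  have h3 : D.card ≤ ((A.biUnion U \ X₁) ∪ D).card := card_le_card subset_union_right
  rcases hKP A hA _ hDi with h | h <;> omega

/-- **The punctured step of Griggs.** -/
theorem punct [Nonempty β] {P X X' : Finset α} {Q X₁ X₁' : Finset β} {U : α → Finset β}
    {L : β → Finset α} {π : β → β} (hLP : ∀ v ∈ Q, L v ⊆ P) (hUQ : ∀ x ∈ P, U x ⊆ Q)
    (hUL : ∀ x ∈ P, ∀ v ∈ Q, x ∈ L v ↔ v ∈ U x)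
    (hπ : Set.BijOn π (Q : Set β) (Q : Set β))
    (hX : X ⊆ P) (hX' : X' ⊆ P) (hX₁ : X₁ ⊆ Q) (hXX : X.card = X'.card)
    (hπX : X₁.image π = X₁')
    (hKP : ∀ A ⊆ P \ X, ∀ D ⊆ Q \ X₁', A.card ≤ (D.biUnion L \ X').card ∨
      A.card + D.card ≤ (A.biUnion U \ X₁).card + (D.biUnion L \ X').card) :
    ∃ F G : α → β, (∀ x ∈ P \ X, F x ∈ U x ∧ F x ∉ X₁) ∧ (∀ x ∈ P \ X', G x ∈ U x ∧ G x ∉ X₁') ∧
      Set.InjOn F (P \ X : Finset α) ∧ Set.InjOn G (P \ X' : Finset α) ∧
      ((P \ X).image F).image π = (P \ X').image G := by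
  obtain ⟨f, hfi, hf⟩ := (Finset.all_card_le_biUnion_card_iff_exists_injective
    (nbP P X X' Q X₁ U L π)).1 (hallP hπ hX₁ hπX hKP)
  have hfl : ∀ x : {x // x ∈ P \ X}, ∃ u ∈ U x.1, u ∉ X₁ ∧ f (Sum.inl x) = Sum.inl u := by
    intro x
    have h := hf (Sum.inl x)
    obtain ⟨u, hu, h⟩ := mem_map.1 h
    rw [mem_sdiff] at hu
    exact ⟨u, hu.1, hu.2, h.symm⟩
  have hfc : ∀ u : {u // u ∈ Q \ X₁}, (f (Sum.inr u) = Sum.inl u.1) ∨
      ∃ y ∈ L (π u.1), y ∉ X' ∧ f (Sum.inr u) = Sum.inr y := by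
    intro u
    have h := hf (Sum.inr u)
    rcases mem_insert.1 h with h | h
    · exact Or.inl h
    · obtain ⟨y, hy, h⟩ := mem_map.1 h
      rw [mem_sdiff] at hy
      exact Or.inr ⟨y, hy.1, hy.2, h.symm⟩
  have hsurj : ∀ z ∈ (Q \ X₁).disjSum (P \ X'), ∃ i, f i = z := by
    have h1 : (univ.image f) ⊆ (Q \ X₁).disjSum (P \ X') := by
      intro z hz
      obtain ⟨i, _, rfl⟩ := mem_image.1 hz
      rcases i with x | u
      · obtain ⟨u, hu, hu', h⟩ := hfl x
        rw [h, inl_mem_disjSum]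
        exact mem_sdiff.2 ⟨hUQ _ (mem_sdiff.1 x.2).1 hu, hu'⟩
      · rcases hfc u with h | ⟨y, hy, hy', h⟩
        · rw [h, inl_mem_disjSum]; exact u.2
        · rw [h, inr_mem_disjSum]
          exact mem_sdiff.2 ⟨hLP _ (hπ.mapsTo (mem_coe.2 (mem_sdiff.1 u.2).1)) hy, hy'⟩
    have h2 : (univ.image f).card = ((Q \ X₁).disjSum (P \ X')).card := by
      rw [card_image_of_injective _ hfi, card_disjSum, card_univ,
        Fintype.card_sum, Fintype.card_coe, Fintype.card_coe]
      have h3 : (P \ X).card + X.card = P.card := card_sdiff_add_card_eq_card hX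
      have h4 : (P \ X').card + X'.card = P.card := card_sdiff_add_card_eq_card hX'
      omega
    have h3 := eq_of_subset_of_card_le h1 h2.ge
    intro z hz
    rw [← h3] at hz
    obtain ⟨i, _, h⟩ := mem_image.1 hz
    exact ⟨i, h⟩
  have hFex : ∀ x : α, ∃ u : β, ∀ hx : x ∈ P \ X, u ∈ U x ∧ u ∉ X₁ ∧
      f (Sum.inl ⟨x, hx⟩) = Sum.inl u := by
    intro x
    by_cases hx : x ∈ P \ X
    · obtain ⟨u, hu, hu', h⟩ := hfl ⟨x, hx⟩
      exact ⟨u, fun _ => ⟨hu, hu', h⟩⟩
    · exact ⟨Classical.arbitrary β, fun h => absurd h hx⟩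
  have hGex : ∀ y : α, ∃ v : β, ∀ _ : y ∈ P \ X', v ∈ U y ∧ v ∉ X₁' ∧
      ∃ u : {u // u ∈ Q \ X₁}, v = π u.1 ∧ f (Sum.inr u) = Sum.inr y := by
    intro y
    by_cases hy : y ∈ P \ X'
    · obtain ⟨i, hi⟩ := hsurj (Sum.inr y) (by rw [inr_mem_disjSum]; exact hy)
      rcases i with x | u
      · obtain ⟨u, _, _, h⟩ := hfl x
        rw [h] at hi; simp at hi
      · rcases hfc u with h | ⟨y', hy', _, h⟩
        · rw [h] at hi; simp at hi
        · have hyy : y' = y := by
            rw [h] at hi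
            simpa using hi
          subst hyy
          have huQ : π u.1 ∈ Q := hπ.mapsTo (mem_coe.2 (mem_sdiff.1 u.2).1)
          refine ⟨π u.1, fun _ => ⟨(hUL y' (mem_sdiff.1 hy).1 _ huQ).1 hy', fun hm => ?_, u, rfl,
            hi⟩⟩
          rw [← hπX] at hm
          obtain ⟨w, hw, hwu⟩ := mem_image.1 hm
          have : w = u.1 := hπ.injOn (mem_coe.2 (hX₁ hw)) (mem_coe.2 (mem_sdiff.1 u.2).1) hwu
          exact (mem_sdiff.1 u.2).2 (this ▸ hw)
    · exact ⟨Classical.arbitrary β, fun h => absurd h hy⟩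
  choose F hF using hFex
  choose G hG using hGex
  refine ⟨F, G, fun x hx => ⟨(hF x hx).1, (hF x hx).2.1⟩, fun x hx => ⟨(hG x hx).1, (hG x hx).2.1⟩,
    ?_, ?_, ?_⟩
  · intro x hx y hy hxy
    have h1 := (hF x hx).2.2
    have h2 := (hF y hy).2.2
    rw [hxy, ← h2] at h1
    simpa using hfi h1
  · intro x hx y hy hxy
    obtain ⟨u, hu, hu'⟩ := (hG x hx).2.2
    obtain ⟨v, hv, hv'⟩ := (hG y hy).2.2
    have h1 : u = v := by
      apply Subtype.ext
      exact hπ.injOn (mem_coe.2 (mem_sdiff.1 u.2).1) (mem_coe.2 (mem_sdiff.1 v.2).1)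
        (by rw [← hu, ← hv, hxy])
    rw [h1, hv'] at hu'
    simpa using hu'.symm
  · ext v
    simp only [mem_image]
    constructor
    · rintro ⟨_, ⟨x, hx, rfl⟩, rfl⟩
      have hFQ : F x ∈ Q \ X₁ :=
        mem_sdiff.2 ⟨hUQ x (mem_sdiff.1 hx).1 (hF x hx).1, (hF x hx).2.1⟩
      rcases hfc ⟨F x, hFQ⟩ with h | ⟨y, hy, hy', h⟩
      · rw [← (hF x hx).2.2] at h
        exact absurd (hfi h) (by simp)
      · have hyP : y ∈ P \ X' :=
          mem_sdiff.2 ⟨hLP _ (hπ.mapsTo (mem_coe.2 (mem_sdiff.1 hFQ).1)) hy, hy'⟩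
        obtain ⟨v, hv, hv'⟩ := (hG y hyP).2.2
        have h1 := hfi (h.trans hv'.symm)
        have h2 : (⟨F x, hFQ⟩ : {u // u ∈ Q \ X₁}) = v := by simpa using h1
        refine ⟨y, hyP, ?_⟩
        rw [hv, ← h2]
    · rintro ⟨y, hy, rfl⟩
      obtain ⟨v, hv, hv'⟩ := (hG y hy).2.2
      obtain ⟨i, hi⟩ := hsurj (Sum.inl v.1) (by rw [inl_mem_disjSum]; exact v.2)
      rcases i with x | w
      · have h2 := (hF x.1 x.2).2.2
        rw [hi] at h2
        have h3 : v.1 = F x.1 := by simpa using h2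
        exact ⟨F x.1, ⟨x.1, x.2, rfl⟩, by rw [hv, h3]⟩
      · rcases hfc w with h | ⟨y', _, _, h⟩
        · rw [h] at hi
          have h3 : w.1 = v.1 := by simpa using hi
          have h4 : w = v := Subtype.ext h3
          rw [h4, hv'] at h
          simp at h
        · rw [h] at hi; simp at hi

end Punct

end Pool.Agent.Helper44.SNX
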