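import Pool.Agent.Helper44.SNX.Hall

set_option autoImplicit false
set_option linter.unusedSectionVars false

/-!
# The ladder: extension of linkings downwards, with prescribed links and special chains

`V k` is the level `k` (a finite type), `rel k x v` says that `v` is an upper cover of `x`.
`Ext rel k π`: the linking `π` of the level `k` can be prolonged down to the level `0`.

* `Kp_step` is the killing step, `T_of_Kp` the start of the special chains,
* `T_step` moves the special chains by one level (optional matchings `E`),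
* `reduce` is the group theory: optional three-cycles lead from all even permutations to `{1}`.
-/

namespace Pool.Agent.Helper44.SNX

open Finset Equiv

section Perm

variable {W W' ι : Type*} [Fintype W] [DecidableEq W] [Fintype W'] [DecidableEq W']
  [Fintype ι] [DecidableEq ι]

/-- a function which is injective on a finset agrees there with a permutation -/
theorem exists_perm (s : Finset W) (g : W → W) (hg : Set.InjOn g (s : Set W)) :
    ∃ ρ : Perm W, ∀ x ∈ s, ρ x = g x := by
  obtain ⟨e, he⟩ := Finset.exists_equiv_extend_of_card_eq (α := W) (β := W)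
    (t := (univ : Finset W)) (by simp) (s := s) (f := g) (subset_univ _) hg
  refine ⟨e.trans (Equiv.subtypeUnivEquiv fun x => mem_univ x), fun x hx => ?_⟩
  exact he x hx

/-- lifting a permutation along `F, G` -/
theorem lift_perm (F G : W ↪ W') (ρ : Perm W') (hρ : ∀ x, ρ (F x) = G x) (π : Perm W) :
    ∃ q : Perm W', (∀ x, q (F x) = G (π x)) ∧ (∀ u, u ∉ Set.range F → q u = ρ u) ∧
      Perm.sign q = Perm.sign ρ * Perm.sign π := by
  refine ⟨ρ * π.viaFintypeEmbedding F, fun x => ?_, fun u hu => ?_, ?_⟩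
  · rw [Perm.mul_apply, Perm.viaFintypeEmbedding_apply_image, hρ]
  · rw [Perm.mul_apply, Perm.viaFintypeEmbedding_apply_notMem_range π F hu]
  · rw [Perm.sign_mul, Perm.viaFintypeEmbedding_sign]

/-- a permutation fixing everything outside the range of `x` comes from the index type -/
theorem exists_index_perm (x : ι ↪ W) (τ : Perm W) (hτ : ∀ u, u ∉ Set.range x → τ u = u) :
    ∃ s : Perm ι, (∀ i, τ (x i) = x (s i)) ∧ Perm.sign s = Perm.sign τ := by
  have hr : ∀ i, τ (x i) ∈ Set.range x := by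
    intro i
    by_contra h
    have h1 := hτ _ h
    have h2 : τ (x i) = x i := τ.injective h1
    exact h ⟨i, h2.symm⟩
  choose f hf using hr
  have hinj : Function.Injective f := by
    intro i j hij
    have : τ (x i) = τ (x j) := by rw [← hf i, ← hf j, hij]
    exact x.injective (τ.injective this)
  have hbij : Function.Bijective f := Finite.injective_iff_bijective.1 hinj
  refine ⟨Equiv.ofBijective f hbij, fun i => (hf i).symm, ?_⟩
  have h1 : τ = Perm.viaFintypeEmbedding (Equiv.ofBijective f hbij) x := by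
    ext u
    by_cases hu : u ∈ Set.range x
    · obtain ⟨i, rfl⟩ := hu
      rw [Perm.viaFintypeEmbedding_apply_image, ← hf i]
      rfl
    · rw [Perm.viaFintypeEmbedding_apply_notMem_range _ _ hu, hτ u hu]
  rw [h1, Perm.viaFintypeEmbedding_sign]

end Perm

section Ladder

variable {V : ℕ → Type*} [∀ k, Fintype (V k)] [∀ k, DecidableEq (V k)]
  (rel : ∀ k, V k → V (k + 1) → Prop)

/-- the linking `π` of the level `k` can be prolonged down to the level `0` -/
def Ext : (k : ℕ) → Perm (V k) → Prop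
  | 0, _ => True
  | k + 1, π => ∃ (F G : V k ↪ V (k + 1)) (π' : Perm (V k)),
      (∀ x, rel k x (F x)) ∧ (∀ x, rel k x (G x)) ∧ (∀ x, π (F x) = G (π' x)) ∧ Ext k π'

/-- upper shadow -/
noncomputable def upS (k : ℕ) (A : Finset (V k)) : Finset (V (k + 1)) :=
  open Classical in univ.filter fun v => ∃ x ∈ A, rel k x v

/-- lower shadow -/
noncomputable def loS (k : ℕ) (D : Finset (V (k + 1))) : Finset (V k) :=
  open Classical in univ.filter fun x => ∃ v ∈ D, rel k x v

theorem mem_upS {k : ℕ} {A : Finset (V k)} {v : V (k + 1)} :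
    v ∈ upS rel k A ↔ ∃ x ∈ A, rel k x v := by
  simp [upS]

theorem mem_loS {k : ℕ} {D : Finset (V (k + 1))} {x : V k} :
    x ∈ loS rel k D ↔ ∃ v ∈ D, rel k x v := by
  simp [loS]

/-- Hall's condition for all linkings (condition (K)) -/
def Full (k : ℕ) : Prop :=
  ∀ (π : Perm (V (k + 1))) (A : Finset (V k)) (D : Finset (V (k + 1))),
    A.card + D.card ≤ (upS rel k A ∪ D).card + (loS rel k (D.image π)).card

/-- only `y` links are prescribed: everything can be prolonged, with any sign -/
def Kp (k y : ℕ) : Prop :=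
  ∀ Y : Finset (V k), Y.card ≤ y → ∀ (π : Perm (V k)) (e : ℤˣ),
    ∃ q : Perm (V k), (∀ u ∈ Y, q u = π u) ∧ Perm.sign q = e ∧ Ext rel k q

/-- the punctured condition -/
def KP (k : ℕ) (X X' : Finset (V k)) (X₁ X₁' : Finset (V (k + 1))) : Prop :=
  ∀ (A : Finset (V k)) (D : Finset (V (k + 1))), Disjoint A X → Disjoint D X₁' →
    A.card ≤ (loS rel k D \ X').card ∨
      A.card + D.card ≤ (upS rel k A \ X₁).card + (loS rel k D \ X').card

theorem Kp_mono {k y z : ℕ} (h : Kp rel k y) (hz : z ≤ y) : Kp rel k z :=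
  fun Y hY π e => h Y (hY.trans hz) π e

private theorem biU (k : ℕ) (A : Finset (V k)) :
    (A.biUnion fun x => upS rel k {x}) = upS rel k A := by
  ext v
  simp only [mem_biUnion, mem_upS, mem_singleton, exists_eq_left]

private theorem biL (k : ℕ) (D : Finset (V (k + 1))) :
    (D.biUnion fun v => loS rel k {v}) = loS rel k D := by
  ext v
  simp only [mem_biUnion, mem_loS, mem_singleton, exists_eq_left]

theorem Kp_step {k y r : ℕ} (hfull : Full rel k)
    (hC : ∀ A B : Finset (V k), r + A.card + B.card ≤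
      max y ((upS rel k A).card + (upS rel k B).card))
    (hy : y ≤ Fintype.card (V (k + 1))) (h : Kp rel k (y - r)) : Kp rel (k + 1) y := by
  intro Y₀ hY₀ π e
  obtain ⟨Y, hYY, hYc⟩ : ∃ Y : Finset (V (k + 1)), Y₀ ⊆ Y ∧ Y.card = y := by
    obtain ⟨Y, h1, _, h2⟩ := exists_subsuperset_card_eq (subset_univ Y₀) hY₀ (by simpa using hy)
    exact ⟨Y, h1, h2⟩
  suffices hsuf : ∃ q : Perm (V (k + 1)), (∀ u ∈ Y, q u = π u) ∧ Perm.sign q = e ∧
      Ext rel (k + 1) q by
    obtain ⟨q, h1, h2, h3⟩ := hsuf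
    exact ⟨q, fun u hu => h1 u (hYY hu), h2, h3⟩
  rcases isEmpty_or_nonempty (V (k + 1)) with hem | hne
  · -- no elements at all: the sign is a problem only for `e = -1`, excluded by `h`
    have hemk : IsEmpty (V k) := by
      have h1 := hfull 1 (univ : Finset (V k)) ∅
      have h2 : (upS rel k (univ : Finset (V k)) ∪ ∅).card = 0 := by
        rw [card_eq_zero]; exact Finset.eq_empty_of_isEmpty _
      have h3 : (loS rel k ((∅ : Finset (V (k + 1))).image (1 : Perm (V (k + 1))))).card = 0 := by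
        rw [card_eq_zero, image_empty]
        ext x; simp [mem_loS]
      rw [h2, h3, card_empty] at h1
      have h4 : Fintype.card (V k) = 0 := by simpa using h1
      exact Fintype.card_eq_zero_iff.1 h4
    obtain ⟨q', _, hs, hE⟩ := h ∅ (by simp) 1 e
    have hq' : q' = 1 := by ext x; exact hemk.elim x
    have he : e = 1 := by rw [← hs, hq', Perm.sign_one]
    refine ⟨1, fun u _ => hem.elim u, by rw [he, Perm.sign_one], ?_⟩
    exact ⟨⟨fun x => hemk.elim x, fun x => hemk.elim x⟩, ⟨fun x => hemk.elim x, fun x =>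
      hemk.elim x⟩, q', fun x => hemk.elim x, fun x => hemk.elim x, fun x => hemk.elim x, hE⟩
  obtain ⟨F, G, hFG, hFi, hGi, hYM, hr⟩ := kill (P := (univ : Finset (V k)))
    (Q := (univ : Finset (V (k + 1)))) (Y := Y) (U := fun x => upS rel k {x})
    (L := fun v => loS rel k {v}) (π := π) (r := r)
    (fun _ _ => subset_univ _) (fun _ _ => subset_univ _)
    (fun x _ v _ => by simp [mem_upS, mem_loS])
    (by rw [coe_univ]; exact Set.bijOn_univ.2 π.bijective) (subset_univ _)
    (fun A _ D _ => by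
      have h1 := hfull π A D
      have h2 : (D.biUnion fun u => loS rel k {π u}) = loS rel k (D.image π) := by
        ext v
        simp only [mem_biUnion, mem_loS, mem_singleton, exists_eq_left, mem_image,
          exists_exists_and_eq_and]
      rw [biU, h2]
      exact h1)
    (fun A _ B _ => by
      rw [biU, biU, hYc]
      exact hC A B)
  have hFinj : Function.Injective F := by
    intro a b hab; exact hFi (by simp) (by simp) hab
  have hGinj : Function.Injective G := by
    intro a b hab; exact hGi (by simp) (by simp) hab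
  have hFr : ∀ x, rel k x (F x) := fun x => by
    have := (hFG x (mem_univ _)).1
    simpa [mem_upS] using this
  have hGr : ∀ x, rel k x (G x) := fun x => by
    have := (hFG x (mem_univ _)).2
    simpa [mem_upS] using this
  set F' : V k ↪ V (k + 1) := ⟨F, hFinj⟩ with hF'
  set G' : V k ↪ V (k + 1) := ⟨G, hGinj⟩ with hG'
  -- a permutation `ρ` with `ρ (F x) = G x` and `ρ = π` on `Y \ range F`
  obtain ⟨ρ, hρ⟩ : ∃ ρ : Perm (V (k + 1)), (∀ x, ρ (F x) = G x) ∧
      ∀ u ∈ Y, u ∉ Set.range F → ρ u = π u := by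
    classical
    let g : V (k + 1) → V (k + 1) := fun u => if h : ∃ x, F x = u then G h.choose else π u
    have hg1 : ∀ x, g (F x) = G x := by
      intro x
      have hx : ∃ x', F x' = F x := ⟨x, rfl⟩
      simp only [g, dif_pos hx]
      exact congrArg G (hFinj hx.choose_spec)
    have hg2 : ∀ u, (¬ ∃ x, F x = u) → g u = π u := by
      intro u hu
      simp only [g, dif_neg hu]
    obtain ⟨ρ, hρ⟩ := exists_perm (univ.image F ∪ Y) g (by
      intro u hu v hv huv
      have hcase : ∀ w : V (k + 1), w ∈ univ.image F ∪ Y → (∃ x, F x = w) ∨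
          (w ∈ Y ∧ ¬ ∃ x, F x = w) := by
        intro w hw
        by_cases h : ∃ x, F x = w
        · exact Or.inl h
        · rcases mem_union.1 hw with hw | hw
          · obtain ⟨x, _, hx⟩ := mem_image.1 hw
            exact absurd ⟨x, hx⟩ h
          · exact Or.inr ⟨hw, h⟩
      have hmix : ∀ (x : V k) (w : V (k + 1)), w ∈ Y → (¬ ∃ x, F x = w) → G x ≠ π w := by
        intro x w hw hw' heq
        have h1 : π w ∈ univ.image G := by rw [← heq]; exact mem_image_of_mem _ (mem_univ _)
        obtain ⟨x', _, hx'⟩ := mem_image.1 ((hYM w hw).2 h1)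
        exact hw' ⟨x', hx'⟩
      rcases hcase u (mem_coe.1 hu) with ⟨x, rfl⟩ | ⟨h1, h2⟩ <;>
        rcases hcase v (mem_coe.1 hv) with ⟨x', rfl⟩ | ⟨h3, h4⟩
      · rw [hg1, hg1] at huv
        rw [hGinj huv]
      · rw [hg1, hg2 v h4] at huv
        exact absurd huv (hmix x v h3 h4)
      · rw [hg1, hg2 u h2] at huv
        exact absurd huv.symm (hmix x' u h1 h2)
      · rw [hg2 u h2, hg2 v h4] at huv
        exact π.injective huv)
    refine ⟨ρ, fun x => ?_, fun u hu hu' => ?_⟩
    · rw [hρ _ (mem_union_left _ (mem_image_of_mem _ (mem_univ _))), hg1]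
    · rw [hρ _ (mem_union_right _ hu), hg2 u (fun h => hu' h)]
  -- the prescribed part one level lower
  obtain ⟨π₀, hπ₀⟩ : ∃ π₀ : Perm (V k), ∀ x, F x ∈ Y → G (π₀ x) = π (F x) := by
    classical
    have hex : ∀ x, F x ∈ Y → ∃ z, G z = π (F x) := by
      intro x hx
      obtain ⟨z, _, hz⟩ := mem_image.1 ((hYM _ hx).1 (mem_image_of_mem _ (mem_univ _)))
      exact ⟨z, hz⟩
    let g : V k → V k := fun x => if h : F x ∈ Y then (hex x h).choose else x
    have hg : ∀ x, F x ∈ Y → G (g x) = π (F x) := by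
      intro x hx
      simp only [g, dif_pos hx]
      exact (hex x hx).choose_spec
    obtain ⟨ρ', hρ'⟩ := exists_perm (univ.filter fun x => F x ∈ Y) g (by
      intro a ha b hb hab
      have ha' : F a ∈ Y := (mem_filter.1 (mem_coe.1 ha)).2
      have hb' : F b ∈ Y := (mem_filter.1 (mem_coe.1 hb)).2
      have h1 := hg a ha'
      rw [hab, hg b hb'] at h1
      exact (hFinj (π.injective h1)).symm)
    refine ⟨ρ', fun x hx => ?_⟩
    rw [hρ' x (mem_filter.2 ⟨mem_univ _, hx⟩), hg x hx]
  have hcard : (univ.filter fun x => F x ∈ Y).card ≤ y - r := by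
    have h1 : (univ.filter fun x => F x ∈ Y).card = (Y ∩ univ.image F).card := by
      rw [← card_image_of_injective _ hFinj]
      congr 1
      ext u
      simp only [mem_image, mem_filter, mem_univ, true_and, mem_inter]
      constructor
      · rintro ⟨x, hx, rfl⟩; exact ⟨hx, x, rfl⟩
      · rintro ⟨hu, x, rfl⟩; exact ⟨x, hu, rfl⟩
    have h2 : (Y \ univ.image F).card + (Y ∩ univ.image F).card = Y.card :=
      card_sdiff_add_card_inter _ _
    omega
  obtain ⟨q', hq'1, hq'2, hq'3⟩ := h _ hcard π₀ (e * Perm.sign ρ)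
  obtain ⟨q, hq1, hq2, hq3⟩ := lift_perm F' G' ρ hρ.1 q'
  refine ⟨q, fun u hu => ?_, ?_, F', G', q', hFr, hGr, hq1, hq'3⟩
  · by_cases hur : u ∈ Set.range F
    · obtain ⟨x, rfl⟩ := hur
      have h1 : q (F x) = G (q' x) := hq1 x
      rw [h1, hq'1 x (mem_filter.2 ⟨mem_univ _, hu⟩)]
      exact hπ₀ x hu
    · rw [hq2 u hur, hρ.2 u hu hur]
  · rw [hq3, hq'2]
    rcases Int.units_eq_one_or (Perm.sign ρ) with h1 | h1 <;>
      rcases Int.units_eq_one_or e with h2 | h2 <;> simp [h1, h2]

/-- the identity can be prolonged -/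
theorem Ext_one (sh : ∀ k, V k ↪ V (k + 1)) (hsh : ∀ k x, rel k x (sh k x)) (k : ℕ) :
    Ext rel k 1 := by
  induction k with
  | zero => exact trivial
  | succ k ih => exact ⟨sh k, sh k, 1, hsh k, hsh k, fun _ => rfl, ih⟩

/-- nothing is prescribed -/
theorem Kp_zero (sh : ∀ k, V k ↪ V (k + 1)) (hsh : ∀ k x, rel k x (sh k x)) {k : ℕ}
    {u v : V (k + 1)} (huv : u ≠ v) (hu : u ∉ Set.range (sh k)) (hv : v ∉ Set.range (sh k)) :
    Kp rel (k + 1) 0 := by
  intro Y hY π e
  have hY0 : Y = ∅ := card_eq_zero.1 (Nat.le_zero.1 hY)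
  subst hY0
  rcases Int.units_eq_one_or e with rfl | rfl
  · exact ⟨1, fun u hu => absurd hu (notMem_empty u), Perm.sign_one, Ext_one rel sh hsh _⟩
  · refine ⟨Equiv.swap u v, fun u hu => absurd hu (notMem_empty u), Perm.sign_swap huv, sh k,
      sh k, 1, hsh k, hsh k, fun x => ?_, Ext_one rel sh hsh _⟩
    rw [Equiv.swap_apply_of_ne_of_ne]
    · rfl
    · rintro rfl; exact hu ⟨x, rfl⟩
    · rintro rfl; exact hv ⟨x, rfl⟩

/-- special chains at `x` (bottoms) and `x'` (tops); `S` is the set of unknown permutations -/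
def T {ι : Type*} (k : ℕ) (x x' : ι ↪ V k) (S : Set (Perm ι)) : Prop :=
  ∀ π : Perm (V k), (∀ i, π (x i) = x' i) → ∃ s ∈ S, ∃ q : Perm (V k),
    (∀ u, u ∉ Set.range x → q u = π u) ∧ (∀ i, q (x i) = x' (s i)) ∧ Ext rel k q

theorem T_mono {ι : Type*} {k : ℕ} {x x' : ι ↪ V k} {S S' : Set (Perm ι)}
    (h : T rel k x x' S) (hS : S ⊆ S') : T rel k x x' S' := by
  intro π hπ
  obtain ⟨s, hs, q, hq⟩ := h π hπ
  exact ⟨s, hS hs, q, hq⟩

theorem Ext_of_T {ι : Type*} {k : ℕ} {x x' : ι ↪ V k} (h : T rel k x x' {1})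
    {π : Perm (V k)} (hπ : ∀ i, π (x i) = x' i) : Ext rel k π := by
  obtain ⟨s, hs, q, hq1, hq2, hq3⟩ := h π hπ
  have hs1 : s = 1 := hs
  subst hs1
  have : q = π := by
    ext u
    by_cases hu : u ∈ Set.range x
    · obtain ⟨i, rfl⟩ := hu
      rw [hq2, hπ]; rfl
    · rw [hq1 u hu]
  rw [← this]
  exact hq3

theorem T_of_Kp {ι : Type*} [Fintype ι] [DecidableEq ι] {k y : ℕ} (x x' : ι ↪ V k)
    (h : Kp rel k y) (hc : Fintype.card (V k) ≤ y + Fintype.card ι) :
    T rel k x x' {s | Perm.sign s = 1} := by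
  classical
  intro π hπ
  obtain ⟨q, hq1, hq2, hq3⟩ := h (univ \ univ.image x) (by
    have h1 : (univ \ univ.image x).card + (univ.image x).card = (univ : Finset (V k)).card :=
      card_sdiff_add_card_eq_card (subset_univ _)
    rw [card_image_of_injective _ x.injective, card_univ, card_univ] at h1
    omega) π (Perm.sign π)
  have hoff : ∀ u, u ∉ Set.range x → q u = π u := by
    intro u hu
    refine hq1 u (mem_sdiff.2 ⟨mem_univ _, fun h => hu ?_⟩)
    obtain ⟨i, _, hi⟩ := mem_image.1 h
    exact ⟨i, hi⟩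
  obtain ⟨s, hs1, hs2⟩ := exists_index_perm x (π⁻¹ * q) (by
    intro u hu
    rw [Perm.mul_apply, hoff u hu]; simp)
  refine ⟨s, ?_, q, hoff, fun i => ?_, hq3⟩
  · show Perm.sign s = 1
    rw [hs2, Perm.sign_mul, Perm.sign_inv, hq2]
    rcases Int.units_eq_one_or (Perm.sign π) with h1 | h1 <;> simp [h1]
  · have h1 := hs1 i
    rw [Perm.mul_apply, Perm.inv_eq_iff_eq, hπ] at h1
    exact h1

/-- **one level with moving special chains** -/
theorem T_step {ι : Type*} [Fintype ι] [DecidableEq ι] {k : ℕ} (x x' : ι ↪ V k)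
    (y y' : ι ↪ V (k + 1)) (E E' S S' : Set (Perm ι))
    (hKP : KP rel k (univ.image x) (univ.image x') (univ.image y) (univ.image y'))
    (hE : ∀ ε ∈ E, ∀ i, rel k (x i) (y (ε i))) (hE' : ∀ ε ∈ E', ∀ i, rel k (x' i) (y' (ε i)))
    (hS : ∀ s ∈ S, ∃ ε ∈ E, ∃ ε' ∈ E', ε' * s * ε⁻¹ ∈ S')
    (h : T rel k x x' S) : T rel (k + 1) y y' S' := by
  classical
  intro π hπ
  rcases isEmpty_or_nonempty (V (k + 1)) with hem | hne
  · have hemi : IsEmpty ι := ⟨fun i => hem.elim (y i)⟩
    have hemk : IsEmpty (V k) := by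
      refine ⟨fun a => ?_⟩
      have h1 := hKP {a} ∅ (by
        rw [disjoint_left]; intro b _ hb
        obtain ⟨i, _, _⟩ := mem_image.1 hb
        exact hemi.elim i) (disjoint_empty_left _)
      have h2 : loS rel k (∅ : Finset (V (k + 1))) = ∅ := by ext x; simp [mem_loS]
      have h3 : upS rel k ({a} : Finset (V k)) = ∅ := Finset.eq_empty_of_isEmpty _
      rw [h2, h3] at h1
      simp at h1
    obtain ⟨s, hs, q, hq1, hq2, hq3⟩ := h 1 (fun i => hemi.elim i)
    obtain ⟨ε, _, ε', _, hs'⟩ := hS s hs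
    refine ⟨_, hs', 1, fun u => hem.elim u, fun i => hemi.elim i, ?_⟩
    exact ⟨⟨fun x => hemk.elim x, fun x => hemk.elim x⟩, ⟨fun x => hemk.elim x, fun x =>
      hemk.elim x⟩, q, fun x => hemk.elim x, fun x => hemk.elim x, fun x => hemk.elim x, hq3⟩
  have hcx : ∀ {n : ℕ} (z : ι ↪ V n), (univ.image z).card = Fintype.card ι := by
    intro n z
    rw [card_image_of_injective _ z.injective, card_univ]
  have hmr : ∀ {n : ℕ} (z : ι ↪ V n) (u : V n), u ∈ univ.image z ↔ u ∈ Set.range z := by
    intro n z u; simp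
  obtain ⟨F, G, hF, hG, hFi, hGi, hFG⟩ := punct (P := (univ : Finset (V k)))
    (X := univ.image x) (X' := univ.image x')
    (Q := (univ : Finset (V (k + 1)))) (X₁ := univ.image y) (X₁' := univ.image y')
    (U := fun x => upS rel k {x})
    (L := fun v => loS rel k {v}) (π := π)
    (fun _ _ => subset_univ _) (fun _ _ => subset_univ _)
    (fun x _ v _ => by simp [mem_upS, mem_loS])
    (by rw [coe_univ]; exact Set.bijOn_univ.2 π.bijective) (subset_univ _) (subset_univ _)
    (subset_univ _) (by rw [hcx, hcx])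
    (by
      ext v
      simp only [mem_image, mem_univ, true_and, exists_exists_eq_and]
      constructor
      · rintro ⟨i, rfl⟩; exact ⟨i, (hπ i).symm⟩
      · rintro ⟨i, rfl⟩; exact ⟨i, hπ i⟩)
    (by
      intro A hA D hD
      rw [biU, biL]
      refine hKP A D ?_ ?_
      · rw [disjoint_left]
        intro a ha hax
        exact (mem_sdiff.1 (hA ha)).2 hax
      · rw [disjoint_left]
        intro a ha hax
        exact (mem_sdiff.1 (hD ha)).2 hax)
  have hFr : ∀ u, u ∉ Set.range x → rel k u (F u) ∧ F u ∉ Set.range y := by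
    intro u hu
    obtain ⟨h1, h2⟩ := hF u (mem_sdiff.2 ⟨mem_univ _, fun h => hu ((hmr x u).1 h)⟩)
    refine ⟨by simpa [mem_upS] using h1, fun h => h2 ((hmr y _).2 h)⟩
  have hGr : ∀ u, u ∉ Set.range x' → rel k u (G u) ∧ G u ∉ Set.range y' := by
    intro u hu
    obtain ⟨h1, h2⟩ := hG u (mem_sdiff.2 ⟨mem_univ _, fun h => hu ((hmr x' u).1 h)⟩)
    refine ⟨by simpa [mem_upS] using h1, fun h => h2 ((hmr y' _).2 h)⟩
  -- partner in the lower level
  have hpart : ∀ u, u ∉ Set.range x → ∃ w, w ∉ Set.range x' ∧ G w = π (F u) := by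
    intro u hu
    have h1 : π (F u) ∈ ((univ \ univ.image x).image F).image π :=
      mem_image_of_mem _ (mem_image_of_mem _
        (mem_sdiff.2 ⟨mem_univ _, fun h => hu ((hmr x u).1 h)⟩))
    rw [hFG] at h1
    obtain ⟨w, hw, hw'⟩ := mem_image.1 h1
    exact ⟨w, fun h => (mem_sdiff.1 hw).2 ((hmr x' w).2 h), hw'⟩
  obtain ⟨π', hπ'1, hπ'2⟩ : ∃ π' : Perm (V k), (∀ i, π' (x i) = x' i) ∧
      ∀ u, u ∉ Set.range x → π' u ∉ Set.range x' ∧ G (π' u) = π (F u) := by
    let g : V k → V k := fun u => if h : ∃ i, x i = u then x' h.choose else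
      if h' : u ∉ Set.range x then (hpart u h').choose else u
    have hg1 : ∀ i, g (x i) = x' i := by
      intro i
      have hx : ∃ j, x j = x i := ⟨i, rfl⟩
      simp only [g, dif_pos hx]
      exact congrArg x' (x.injective hx.choose_spec)
    have hg2 : ∀ u, u ∉ Set.range x → g u ∉ Set.range x' ∧ G (g u) = π (F u) := by
      intro u hu
      have h1 : ¬ ∃ i, x i = u := hu
      simp only [g, dif_neg h1, dif_pos hu]
      exact (hpart u hu).choose_spec
    have hginj : Function.Injective g := by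
      intro a b hab
      by_cases ha : a ∈ Set.range x <;> by_cases hb : b ∈ Set.range x
      · obtain ⟨i, rfl⟩ := ha
        obtain ⟨j, rfl⟩ := hb
        rw [hg1, hg1] at hab
        rw [x'.injective hab]
      · obtain ⟨i, rfl⟩ := ha
        rw [hg1] at hab
        exact absurd ⟨i, hab⟩ (hg2 b hb).1
      · obtain ⟨j, rfl⟩ := hb
        rw [hg1] at hab
        exact absurd ⟨j, hab.symm⟩ (hg2 a ha).1
      · have h1 := (hg2 a ha).2
        rw [hab, (hg2 b hb).2] at h1
        have h2 := π.injective h1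
        exact (hFi (by simpa using hb) (by simpa using ha) h2).symm
    exact ⟨Equiv.ofBijective g (Finite.injective_iff_bijective.1 hginj), hg1, hg2⟩
  obtain ⟨s, hs, q, hq1, hq2, hq3⟩ := h π' hπ'1
  obtain ⟨ε, hε, ε', hε', hs'⟩ := hS s hs
  -- the complete maps
  obtain ⟨F', hF'1, hF'2⟩ : ∃ F' : V k ↪ V (k + 1), (∀ i, F' (x i) = y (ε i)) ∧
      ∀ u, u ∉ Set.range x → F' u = F u := by
    let g : V k → V (k + 1) := fun u => if h : ∃ i, x i = u then y (ε h.choose) else F u
    have hg1 : ∀ i, g (x i) = y (ε i) := by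
      intro i
      have hx : ∃ j, x j = x i := ⟨i, rfl⟩
      simp only [g, dif_pos hx]
      exact congrArg (fun j => y (ε j)) (x.injective hx.choose_spec)
    have hg2 : ∀ u, u ∉ Set.range x → g u = F u := by
      intro u hu
      have h1 : ¬ ∃ i, x i = u := hu
      simp only [g, dif_neg h1]
    refine ⟨⟨g, ?_⟩, hg1, hg2⟩
    intro a b hab
    by_cases ha : a ∈ Set.range x <;> by_cases hb : b ∈ Set.range x
    · obtain ⟨i, rfl⟩ := ha
      obtain ⟨j, rfl⟩ := hb
      rw [hg1, hg1] at hab
      rw [ε.injective (y.injective hab)]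
    · obtain ⟨i, rfl⟩ := ha
      rw [hg1, hg2 b hb] at hab
      exact absurd ⟨_, hab⟩ (hFr b hb).2
    · obtain ⟨j, rfl⟩ := hb
      rw [hg1, hg2 a ha] at hab
      exact absurd ⟨_, hab.symm⟩ (hFr a ha).2
    · rw [hg2 a ha, hg2 b hb] at hab
      exact hFi (by simpa using ha) (by simpa using hb) hab
  obtain ⟨G', hG'1, hG'2⟩ : ∃ G' : V k ↪ V (k + 1), (∀ i, G' (x' i) = y' (ε' i)) ∧
      ∀ u, u ∉ Set.range x' → G' u = G u := by
    let g : V k → V (k + 1) := fun u => if h : ∃ i, x' i = u then y' (ε' h.choose) else G u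
    have hg1 : ∀ i, g (x' i) = y' (ε' i) := by
      intro i
      have hx : ∃ j, x' j = x' i := ⟨i, rfl⟩
      simp only [g, dif_pos hx]
      exact congrArg (fun j => y' (ε' j)) (x'.injective hx.choose_spec)
    have hg2 : ∀ u, u ∉ Set.range x' → g u = G u := by
      intro u hu
      have h1 : ¬ ∃ i, x' i = u := hu
      simp only [g, dif_neg h1]
    refine ⟨⟨g, ?_⟩, hg1, hg2⟩
    intro a b hab
    by_cases ha : a ∈ Set.range x' <;> by_cases hb : b ∈ Set.range x'
    · obtain ⟨i, rfl⟩ := ha
      obtain ⟨j, rfl⟩ := hb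
      rw [hg1, hg1] at hab
      rw [ε'.injective (y'.injective hab)]
    · obtain ⟨i, rfl⟩ := ha
      rw [hg1, hg2 b hb] at hab
      exact absurd ⟨_, hab⟩ (hGr b hb).2
    · obtain ⟨j, rfl⟩ := hb
      rw [hg1, hg2 a ha] at hab
      exact absurd ⟨_, hab.symm⟩ (hGr a ha).2
    · rw [hg2 a ha, hg2 b hb] at hab
      exact hGi (by simpa using ha) (by simpa using hb) hab
  refine ⟨_, hs', π * (ε' * s * ε⁻¹).viaFintypeEmbedding y, fun u hu => ?_, fun i => ?_,
    F', G', q, fun u => ?_, fun u => ?_, fun u => ?_, hq3⟩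
  · rw [Perm.mul_apply, Perm.viaFintypeEmbedding_apply_notMem_range _ _ hu]
  · rw [Perm.mul_apply, Perm.viaFintypeEmbedding_apply_image, hπ]
  · by_cases hu : u ∈ Set.range x
    · obtain ⟨i, rfl⟩ := hu
      rw [hF'1]; exact hE ε hε i
    · rw [hF'2 u hu]; exact (hFr u hu).1
  · by_cases hu : u ∈ Set.range x'
    · obtain ⟨i, rfl⟩ := hu
      rw [hG'1]; exact hE' ε' hε' i
    · rw [hG'2 u hu]; exact (hGr u hu).1
  · by_cases hu : u ∈ Set.range x
    · obtain ⟨i, rfl⟩ := hu
      rw [hF'1, hq2, hG'1, Perm.mul_apply, Perm.viaFintypeEmbedding_apply_image, hπ]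
      simp [Perm.mul_apply]
    · rw [hF'2 u hu, hq1 u hu, hG'2 _ (hπ'2 u hu).1, (hπ'2 u hu).2, Perm.mul_apply,
        Perm.viaFintypeEmbedding_apply_notMem_range _ _ (hFr u hu).2]

/-- one level, no options -/
theorem T_step_one {ι : Type*} [Fintype ι] [DecidableEq ι] {k : ℕ} (x x' : ι ↪ V k)
    (y y' : ι ↪ V (k + 1)) (S : Set (Perm ι))
    (hKP : KP rel k (univ.image x) (univ.image x') (univ.image y) (univ.image y'))
    (hE : ∀ i, rel k (x i) (y i)) (hE' : ∀ i, rel k (x' i) (y' i))
    (h : T rel k x x' S) : T rel (k + 1) y y' S :=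
  T_step rel x x' y y' {1} {1} S S hKP (by rintro ε rfl i; exact hE i)
    (by rintro ε rfl i; exact hE' i) (fun s hs => ⟨1, rfl, 1, rfl, by simpa using hs⟩) h

/-- one level, an optional permutation `c` of the bottoms -/
theorem T_step_opt {ι : Type*} [Fintype ι] [DecidableEq ι] {k : ℕ} (x x' : ι ↪ V k)
    (y y' : ι ↪ V (k + 1)) (c : Perm ι) (S S' : Set (Perm ι))
    (hKP : KP rel k (univ.image x) (univ.image x') (univ.image y) (univ.image y'))
    (hE : ∀ i, rel k (x i) (y i)) (hEc : ∀ i, rel k (x i) (y (c i)))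
    (hE' : ∀ i, rel k (x' i) (y' i)) (hS : ∀ s ∈ S, s ∈ S' ∨ s * c⁻¹ ∈ S')
    (h : T rel k x x' S) : T rel (k + 1) y y' S' :=
  T_step rel x x' y y' {1, c} {1} S S' hKP
    (by
      rintro ε (rfl | hc) i
      · exact hE i
      · rw [Set.mem_singleton_iff] at hc
        subst hc
        exact hEc i)
    (by rintro ε rfl i; exact hE' i)
    (fun s hs => by
      rcases hS s hs with h1 | h1
      · exact ⟨1, Or.inl rfl, 1, rfl, by simpa using h1⟩
      · exact ⟨c, Or.inr rfl, 1, rfl, by simpa using h1⟩) h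

end Ladder

section Group

/-- optional three-cycles lead from all even permutations to `{1}` -/
theorem reduce {ι : Type*} [Fintype ι] [DecidableEq ι] (R : Set (Perm ι) → Set (Perm ι) → Prop)
    (hmono : ∀ S S', S ⊆ S' → R S S') (htrans : ∀ S S' S'', R S S' → R S' S'' → R S S'')
    (hc : ∀ c : Perm ι, c.IsThreeCycle → ∀ S S' : Set (Perm ι),
      (∀ s ∈ S, s ∈ S' ∨ s * c⁻¹ ∈ S') → R S S') :
    R {s | Perm.sign s = 1} {1} := by
  classical
  have h1 : ∀ s : Perm ι, Perm.sign s = 1 → ∀ S : Set (Perm ι), R (insert s S) (insert 1 S) := by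
    intro s hs
    have hmem : s ∈ Subgroup.closure {σ : Perm ι | σ.IsThreeCycle} := by
      rw [Perm.closure_three_cycles_eq_alternating]
      exact Perm.mem_alternatingGroup.2 hs
    refine Subgroup.closure_induction_right
      (p := fun s _ => ∀ S : Set (Perm ι), R (insert s S) (insert 1 S)) ?_ ?_ ?_ hmem
    · intro S; exact hmono _ _ (Set.Subset.refl _)
    · intro s _ c hc' ih S
      refine htrans _ (insert s S) _ (hc c hc' _ _ ?_) (ih S)
      rintro t (rfl | ht)
      · right; left; rw [mul_inv_cancel_right]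
      · left; right; exact ht
    · intro s _ c hc' ih S
      refine htrans _ (insert s S) _ (hc c⁻¹ (Perm.IsThreeCycle.inv hc') _ _ ?_) (ih S)
      rintro t (rfl | ht)
      · right; left; rw [mul_inv_cancel_right]
      · left; right; exact ht
  have h2 : ∀ A : Finset (Perm ι), (∀ s ∈ A, Perm.sign s = 1) →
      R (insert 1 (A : Set (Perm ι))) {1} := by
    intro A
    induction A using Finset.induction with
    | empty => intro _; exact hmono _ _ (by simp)
    | insert s A _ ih =>
      intro hA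
      have h3 := h1 s (hA s (Finset.mem_insert_self _ _)) (insert 1 (A : Set (Perm ι)))
      have h4 := ih fun t ht => hA t (Finset.mem_insert_of_mem ht)
      refine htrans _ _ _ (htrans _ _ _ (hmono _ _ ?_) h3) (htrans _ _ _ (hmono _ _ ?_) h4)
      · rw [Finset.coe_insert]
        intro t ht
        rcases ht with rfl | rfl | ht
        · exact Or.inr (Or.inl rfl)
        · exact Or.inl rfl
        · exact Or.inr (Or.inr ht)
      · intro t ht
        rcases ht with rfl | ht
        · exact Or.inl rfl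
        · exact ht
  have h5 := h2 (univ.filter fun s => Perm.sign s = 1) (fun s hs => (mem_filter.1 hs).2)
  refine htrans _ _ _ (hmono _ _ ?_) h5
  intro s hs
  right
  simpa using hs

end Group

end Pool.Agent.Helper44.SNX
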